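import Pool.Agent.Work.MP_8d07ed_lc.Final

/-!
# Sub-cubic randomised factorisation of dense bivariate polynomials over finite fields

There is a randomised algorithm that factors every polynomial of total degree `d` in two variables
over a finite field with `q` elements, in the regime where `q` is bounded by a power of `d`, in
`O(d ^ (3 - ε))` operations, for a fixed `ε > 0` (the proof gives `ε = 1 / 100`).

The algorithm is a program in a small fixed language (programs on binary trees with leaves in the
field, every executed operation costs one step), which does not depend on the field; all steps are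
counted, not only the operations in the field.
-/

set_option autoImplicit false

open Pool.Agent.TreeRAM Pool.Agent.BiFac

theorem Pool.Agent.Results.MP_8d07ed_lc.SubcubicFactorization.result :
    ∃ (P : Prog) (ε : ℝ), 0 < ε ∧ ∀ c : ℕ, ∃ C : ℝ,
      ∀ (K : Type) [Field K] [Fintype K] (p k d R : ℕ) (F : MvPolynomial (Fin 2) K),
        p.Prime → Fintype.card K = p ^ k → F ≠ 0 → F.totalDegree = d →
        Fintype.card K ≤ d ^ c → C * (d : ℝ) ^ (3 - ε) ≤ R →
          (∀ tape : Fin R → K, ∃ (y : D K) (t : ℕ),
            Run P (input p k F (List.ofFn tape)) y t ∧ (t : ℝ) ≤ C * (d : ℝ) ^ (3 - ε)) ∧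
          2 * Nat.card (Fin R → K) ≤ 3 * Nat.card {tape : Fin R → K //
            ∃ (L : List (MvPolynomial (Fin 2) K × ℕ)) (t : ℕ), IsFactorization F L ∧
              Run P (input p k F (List.ofFn tape)) (output L) t} :=
  Pool.Agent.BiFac.subcubicFactorization
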